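import Pool.Agent.H27.L1.H34.GHY.GBW

/-!
The integral form of the hybrid fourth moment from the form with well spaced points.
-/

namespace Pool.Agent.H27.L1.H34.GHY

open MeasureTheory Pool.Agent.H27.L1.H34.GM Pool.Agent.H27.L1.H34.GZ Pool.Agent.H27.L1.H34.GU Pool.Agent.H27.L1.H34.GA
open Pool.Agent.H27.L1.H68.GHY Pool.Agent.H27.L1.H23.GB

/-- an integral over the line as an integral of sums over the translates of the integers -/
lemma lint_fold (h : ℝ → ENNReal) (hh : Measurable h) :
    ∫⁻ t, h t = ∫⁻ u in Set.Ico (0 : ℝ) 1, ∑' k : ℤ, h (u + k) := by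
  have h1 : (Set.univ : Set ℝ) = ⋃ k : ℤ, Set.Ico (k : ℝ) (k + 1) := by
    rw [iUnion_Ico_intCast]
  calc ∫⁻ t, h t = ∫⁻ t in Set.univ, h t := by rw [Measure.restrict_univ]
    _ = ∑' k : ℤ, ∫⁻ t in Set.Ico (k : ℝ) (k + 1), h t := by
        rw [h1, lintegral_iUnion (fun k => measurableSet_Ico) (Set.pairwise_disjoint_Ico_intCast ℝ)]
    _ = ∑' k : ℤ, ∫⁻ u in Set.Ico (0 : ℝ) 1, h (u + k) := by
        refine tsum_congr (fun k => ?_)
        have := (measurePreserving_add_right volume (k : ℝ)).setLIntegral_comp_preimage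
          (s := Set.Ico (k : ℝ) (k + 1)) measurableSet_Ico hh
        rw [← this]
        congr 2
        rw [Set.preimage_add_const_Ico]
        congr 1 <;> ring
    _ = _ := by
        refine (lintegral_tsum (f := fun (k : ℤ) (u : ℝ) => h (u + k)) (fun k => ?_)).symm
        exact (hh.comp (measurable_id.add_const (k : ℝ))).aemeasurable

/-- a bound for the sums over well spaced points gives the bound for the integrals -/
lemma spaced_int {ι : Type} [Fintype ι] (P : ℝ) {g : ι → ℝ → ℝ} {Q : ℝ} (hg0 : ∀ i t, 0 ≤ g i t)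
    (hgc : ∀ i, Continuous (g i)) (hQ : 0 ≤ Q)
    (hJ : ∀ J : ι → Finset ℝ, (∀ i, Wsp (J i)) → (∀ i, ∀ t ∈ J i, |t| ≤ P) →
      ∑ i, ∑ t ∈ J i, g i t ≤ Q) :
    ∑ i, ∫⁻ t in Set.Icc (-P) P, ENNReal.ofReal (g i t) ≤ ENNReal.ofReal Q := by
  have hgm : ∀ i, Measurable (fun t => ENNReal.ofReal (g i t)) := fun i =>
    ENNReal.measurable_ofReal.comp (hgc i).measurable
  set H : ι → ℝ → ENNReal := fun i => (Set.Icc (-P) P).indicator (fun t => ENNReal.ofReal (g i t))
    with hH
  have hHm : ∀ i, Measurable (H i) := fun i => (hgm i).indicator measurableSet_Icc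
  have e1 : ∀ i, ∫⁻ t in Set.Icc (-P) P, ENNReal.ofReal (g i t) = ∫⁻ t, H i t := by
    intro i
    rw [hH, lintegral_indicator measurableSet_Icc]
  simp_rw [e1]
  calc ∑ i, ∫⁻ t, H i t = ∑ i, ∫⁻ u in Set.Ico (0 : ℝ) 1, ∑' k : ℤ, H i (u + k) :=
        Finset.sum_congr rfl (fun i _ => lint_fold (H i) (hHm i))
    _ = ∫⁻ u in Set.Ico (0 : ℝ) 1, ∑ i, ∑' k : ℤ, H i (u + k) := by
        rw [lintegral_finsetSum]
        intro i _
        exact Measurable.tsum (fun k => (hHm i).comp (measurable_id.add_const _))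
    _ ≤ ∫⁻ _u in Set.Ico (0 : ℝ) 1, ENNReal.ofReal Q := by
        refine lintegral_mono (fun u => ?_)
        -- the points
        have hinj : Function.Injective (fun k : ℤ => u + (k : ℝ)) := fun a b hab => by
          have : (a : ℝ) = b := by simpa using hab
          exact_mod_cast this
        obtain ⟨J0, hJ0⟩ : ∃ J0 : Finset ℤ, J0 = Finset.Icc ⌈-P - u⌉ ⌊P - u⌋ := ⟨_, rfl⟩
        have hmem : ∀ k : ℤ, k ∈ J0 ↔ u + (k : ℝ) ∈ Set.Icc (-P) P := by
          intro k
          rw [hJ0, Finset.mem_Icc, Int.ceil_le, Int.le_floor, Set.mem_Icc]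
          constructor
          · rintro ⟨a, b⟩
            exact ⟨by linarith, by linarith⟩
          · rintro ⟨a, b⟩
            exact ⟨by linarith, by linarith⟩
        have e2 : ∀ i, ∑' k : ℤ, H i (u + k) =
            ENNReal.ofReal (∑ t ∈ J0.map ⟨fun k : ℤ => u + (k : ℝ), hinj⟩, g i t) := by
          intro i
          rw [Finset.sum_map, ENNReal.ofReal_sum_of_nonneg (fun k _ => hg0 i _),
            tsum_eq_sum (s := J0)]
          · refine Finset.sum_congr rfl (fun k hk => ?_)
            show (Set.Icc (-P) P).indicator (fun t => ENNReal.ofReal (g i t)) (u + k) = _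
            rw [Set.indicator_of_mem ((hmem k).1 hk)]
            rfl
          · intro k hk
            show (Set.Icc (-P) P).indicator (fun t => ENNReal.ofReal (g i t)) (u + k) = _
            rw [Set.indicator_of_notMem (fun hc => hk ((hmem k).2 hc))]
        show ∑ i, ∑' k : ℤ, H i (u + k) ≤ _
        simp_rw [e2]
        rw [← ENNReal.ofReal_sum_of_nonneg (fun i _ => Finset.sum_nonneg (fun t _ => hg0 i t))]
        refine ENNReal.ofReal_le_ofReal ?_
        refine hJ (fun _ => J0.map ⟨fun k : ℤ => u + (k : ℝ), hinj⟩) ?_ ?_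
        · intro i t ht v hv htv
          rw [Finset.mem_map] at ht hv
          obtain ⟨a, _, rfl⟩ := ht
          obtain ⟨b, _, rfl⟩ := hv
          simp only [Function.Embedding.coeFn_mk] at htv ⊢
          have hab : a ≠ b := fun hab => htv (by rw [hab])
          have h4 : (1 : ℤ) ≤ |a - b| := Int.one_le_abs (sub_ne_zero.2 hab)
          have h5 : (1 : ℝ) ≤ |(a : ℝ) - b| := by exact_mod_cast h4
          rw [show u + (a : ℝ) - (u + b) = a - b by ring]
          exact h5
        · intro i t ht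
          rw [Finset.mem_map] at ht
          obtain ⟨a, ha, rfl⟩ := ht
          exact abs_le.2 ((hmem a).1 ha)
    _ = ENNReal.ofReal Q := by
        rw [setLIntegral_const]
        simp

theorem pf_GBI : T_GBW → T_GBM := by
  intro hW m hm1 ε hε
  obtain ⟨C, hC, h⟩ := hW m hm1 ε hε
  refine ⟨C, hC, ?_⟩
  intro N _ T D hSys P hP ι _ _ F lam mu hF hOr
  obtain ⟨L, hL, hJ⟩ := h N T D hSys P hP ι F lam mu hF hOr
  refine ⟨L, hL, ?_⟩
  refine spaced_int P (fun i t => Even.pow_nonneg (by decide) _) ?_ (by positivity)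
    (fun J hJ1 hJ2 => hJ J hJ1 hJ2)
  intro i
  have h1 : Continuous (L i) := (hL i).1.continuous
  refine Continuous.pow (Continuous.mul (h1.comp (by fun_prop)).norm ?_) 4
  fun_prop

end Pool.Agent.H27.L1.H34.GHY
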