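import Pool.Agent.H27.L1.H34.GHY.WSP
import Pool.Agent.H27.L1.H34.GU.MOU

/-!
Row GBW: the hybrid fourth moment at well spaced points.
-/

namespace Pool.Agent.H27.L1.H34.GHY

open MeasureTheory Pool.Agent.H27.L1.H34.GM Pool.Agent.H27.L1.H34.GZ Pool.Agent.H27.L1.H34.GU Pool.Agent.H27.L1.H34.GA
open Pool.Agent.H27.L1.H68.GHY Pool.Agent.H27.L1.H23.GB

/-- the hybrid fourth moment at well spaced points -/
def T_GBW : Prop := ∀ m : ℕ, 1 ≤ m → ∀ ε : ℝ, 0 < ε → ∃ C : ℝ, 0 < C ∧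
  ∀ (N : ℕ) [NeZero N] (T : ℕ → Finset (ZM m)) (D : Set (V m)), SysZ m N T D →
  ∀ P : ℝ, 1 ≤ P → ∀ (ι : Type) [Fintype ι] [DecidableEq ι] (F : ι → Mat m → VN m N → ℂ)
    (lam : ι → ℕ → ℂ) (mu : ι → Fin m → ℂ),
    (∀ i, CusA m N T (F i) (lam i) (mu i) ∧ Lip D (F i) P) → Orthn D F →
    ∃ L : ι → ℂ → ℂ, (∀ i, IsL m 1 (lam i) (L i)) ∧
      ∀ J : ι → Finset ℝ, (∀ i, Wsp (J i)) → (∀ i, ∀ t ∈ J i, |t| ≤ P) →
      ∑ i, ∑ t ∈ J i, (‖L i (1 / 2 + t * Complex.I)‖ *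
        ∏ k : Fin m, ∏ j, (‖(1 / 2 + t * Complex.I : ℂ) - ((k : ℕ) + 1) - mu i j‖ / P)) ^ 4 ≤
      C * ((N : ℝ) * P) ^ ε * (N : ℝ) ^ m * P ^ (m ^ 2)

lemma sx_sd (lam : ℕ → ℂ) (X : ℕ) (t : ℝ) :
    SX lam X (1 / 2 + (t : ℂ) * Complex.I) = SD lam X t := by
  unfold SX SD
  rw [Nat.floor_natCast]

lemma sd_cont (lam : ℕ → ℂ) (X : ℝ) : Continuous (fun t => SD lam X t) := by
  unfold SD
  refine continuous_finsetSum _ (fun n hn => ?_)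
  have hn0 : (n : ℂ) ≠ 0 := by
    have := (Finset.mem_Icc.1 hn).1
    exact_mod_cast (by omega : n ≠ 0)
  refine continuous_const.mul ?_
  refine Continuous.const_cpow ?_ (Or.inl hn0)
  fun_prop

lemma sd_bdd (lam : ℕ → ℂ) (X : ℝ) : ∃ B : ℝ, ∀ t, ‖SD lam X t‖ ≤ B := by
  refine ⟨∑ n ∈ Finset.Icc 1 ⌊X⌋₊, ‖lam n‖ * 1, fun t => ?_⟩
  unfold SD
  refine (norm_sum_le _ _).trans (Finset.sum_le_sum (fun n hn => ?_))
  rw [norm_mul]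
  refine mul_le_mul_of_nonneg_left ?_ (norm_nonneg _)
  have hn1 : 1 ≤ n := (Finset.mem_Icc.1 hn).1
  rw [Complex.norm_natCast_cpow_of_pos (by omega)]
  refine Real.rpow_le_one_of_one_le_of_nonpos (by exact_mod_cast hn1) ?_
  simp

lemma krn_int {k : ℝ → ℝ} (hk : Krn k) (f : ℝ → ℝ) (hf : Continuous f) (B : ℝ)
    (hB : ∀ u, |f u| ≤ B) (t : ℝ) : Integrable (fun τ => k τ * f (t + τ)) := by
  obtain ⟨C, hC, hdec⟩ := hk.dec 2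
  have h1 : Integrable (fun τ : ℝ => (1 + ‖τ‖) ^ (-(2 : ℝ))) := integrable_one_add_norm (by simp)
  refine ((h1.const_mul C).mul_const B).mono'
    ((hk.cont.mul (hf.comp (continuous_const.add continuous_id))).aestronglyMeasurable)
    (Filter.Eventually.of_forall (fun τ => ?_))
  rw [norm_mul, Real.norm_eq_abs, Real.norm_eq_abs, abs_of_nonneg (hk.nn τ)]
  refine mul_le_mul ?_ (hB _) (abs_nonneg _) (by positivity)
  have := hdec τ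
  simpa [Real.norm_eq_abs] using this

theorem pf_GBW : T_ENA → T_HYA → T_DYD → T_CRD → T_GBW := by
  intro hENA hHYA hDYD hCRD m hm1 ε hε
  obtain ⟨e1, he1, he1ε⟩ : ∃ e1 : ℝ, 0 < e1 ∧ (2 * m + 8) * e1 = ε :=
    ⟨ε / (2 * m + 8), by positivity, by field_simp⟩
  obtain ⟨k, C2, hk, hC2, hH⟩ := hHYA m hm1 e1 he1
  obtain ⟨C2', hC2'⟩ : ∃ C2' : ℝ, C2' = max C2 1 := ⟨_, rfl⟩
  have hC2'1 : 1 ≤ C2' := by rw [hC2']; exact le_max_right _ _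
  have hC2'2 : C2 ≤ C2' := by rw [hC2']; exact le_max_left _ _
  obtain ⟨c0, C1, hc0, hC1, hD⟩ := hDYD m hm1 e1 (2 * C2') he1 (by linarith)
  obtain ⟨c3, C3, hc3, hC3, hR⟩ := hCRD m hm1 e1 he1
  obtain ⟨B, hB, hW⟩ := wsp_int k hk
  -- the scale
  obtain ⟨c', hc', hc'1, hc'0, hc'3⟩ : ∃ c' : ℝ, 0 < c' ∧ c' ≤ 1 / 2 ∧ c' ≤ c0 / 2 ∧ c' ≤ c3 / 2 :=
    ⟨min (1 / 2) (min (c0 / 2) (c3 / 2)), lt_min (by norm_num) (lt_min (by positivity)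
      (by positivity)), min_le_left _ _, (min_le_right _ _).trans (min_le_left _ _),
      (min_le_right _ _).trans (min_le_right _ _)⟩
  set S2 : ℝ := ∑' j : ℤ, ((1 + |(j : ℝ)|) ^ 2)⁻¹ with hS2
  have hS2nn : 0 ≤ S2 := tsum_nonneg (fun j => by positivity)
  -- the final constant
  set K : ℝ := 8 * C2 ^ 4 * ((c'⁻¹ ^ e1 * c'⁻¹ ^ (m ^ 2)) * (4 * C3) +
    (c'⁻¹ ^ ((2 * m + 4) * e1) * c'⁻¹ ^ (m ^ 2)) * (B * S2 * C1)) with hK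
  have hKnn : 0 ≤ K := by positivity
  refine ⟨K + 1, by positivity, ?_⟩
  intro N _ T D hSys P hP1 ι _ _ F lam mu hF hOr
  have hN2 := hSys.two_le
  have hN0 : (0 : ℝ) < N := by
    have : 0 < N := by omega
    exact_mod_cast this
  have hN1 : (1 : ℝ) ≤ N := by
    have : 1 ≤ N := by omega
    exact_mod_cast this
  have hP0 : 0 < P := by linarith
  have hn1 : ∀ i, nU D (F i) = 1 := fun i => mou_nU F hOr i
  have hnz : ∀ i, NZ (F i) := fun i => mou_nz hm1 hSys.dom (F i) (by rw [hn1 i]; exact one_ne_zero)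
  have hL0 : ∀ i, ∃ L : ℂ → ℂ, IsL m 1 (lam i) L ∧ ∀ ψ : ℝ → ℂ, Wc m ψ (lam i) →
      ∀ s : ℂ, LmA m ψ (lam i) s = L s * MelA m ψ s := fun i =>
    hENA m N T D hSys (F i) (lam i) (hF i).1.toCusB (hnz i)
  choose L hLL hLm using hL0
  refine ⟨L, hLL, ?_⟩
  intro J hJ hJP
  -- parameters
  obtain ⟨δ, hδ⟩ : ∃ δ : ℝ, δ = c' / P := ⟨_, rfl⟩
  have hδ0 : 0 < δ := by rw [hδ]; positivity
  have hδP : δ * P = c' := by rw [hδ]; field_simp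
  have hδ1 : δ ≤ 1 / 2 := by
    have : δ ≤ δ * P := le_mul_of_one_le_right hδ0.le hP1
    linarith
  have hδP2 : δ * (1 + P) ≤ 2 * c' := by
    have : δ ≤ δ * P := le_mul_of_one_le_right hδ0.le hP1
    linarith
  have hδi : δ⁻¹ = c'⁻¹ * P := by rw [hδ]; field_simp
  have hc'i : 1 ≤ c'⁻¹ := by
    rw [one_le_inv₀ hc']
    linarith
  have hPδ : P ≤ δ⁻¹ := by
    rw [hδi]
    exact le_mul_of_one_le_left hP0.le hc'i
  have hδi1 : 1 ≤ δ⁻¹ := hP1.trans hPδ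
  have hNP : 1 ≤ (N : ℝ) * P := by nlinarith
  -- the length
  obtain ⟨X0, hX0⟩ : ∃ X0 : ℝ, X0 = C2' * ((N : ℝ) * P ^ m) ^ (1 / 2 : ℝ) * (N * P) ^ e1 := ⟨_, rfl⟩
  have hX01 : 1 ≤ X0 := by
    rw [hX0]
    have e1' : 1 ≤ ((N : ℝ) * P ^ m) ^ (1 / 2 : ℝ) := by
      refine Real.one_le_rpow ?_ (by norm_num)
      have : 1 ≤ P ^ m := one_le_pow₀ hP1
      nlinarith
    have e2' : 1 ≤ ((N : ℝ) * P) ^ e1 := Real.one_le_rpow hNP he1.le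
    calc (1 : ℝ) = 1 * 1 * 1 := by norm_num
      _ ≤ _ := by gcongr
  obtain ⟨X, hX⟩ : ∃ X : ℕ, X = ⌈X0⌉₊ := ⟨_, rfl⟩
  have hXge : X0 ≤ X := by rw [hX]; exact Nat.le_ceil _
  have hXle : (X : ℝ) ≤ 2 * X0 := by
    rw [hX]
    have := Nat.ceil_lt_add_one (by linarith : 0 ≤ X0)
    linarith
  have hXle2 : (X : ℝ) ≤ 2 * C2' * ((N : ℝ) ^ ((1 : ℝ) / 2) * δ⁻¹ ^ ((m : ℝ) / 2)) *
      ((N : ℝ) * δ⁻¹) ^ e1 := by
    refine hXle.trans ?_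
    rw [hX0, Real.mul_rpow hN0.le (by positivity), ← Real.rpow_natCast P m, ← Real.rpow_mul hP0.le]
    have e3 : P ^ ((m : ℝ) * (1 / 2)) ≤ δ⁻¹ ^ ((m : ℝ) / 2) := by
      rw [show (m : ℝ) * (1 / 2) = (m : ℝ) / 2 by ring]
      exact Real.rpow_le_rpow hP0.le hPδ (by positivity)
    have e4 : ((N : ℝ) * P) ^ e1 ≤ ((N : ℝ) * δ⁻¹) ^ e1 :=
      Real.rpow_le_rpow (by positivity) (mul_le_mul_of_nonneg_left hPδ hN0.le) he1.le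
    calc 2 * (C2' * ((N : ℝ) ^ (1 / 2 : ℝ) * P ^ ((m : ℝ) * (1 / 2))) * ((N : ℝ) * P) ^ e1) =
        2 * C2' * ((N : ℝ) ^ (1 / 2 : ℝ) * P ^ ((m : ℝ) * (1 / 2))) * ((N : ℝ) * P) ^ e1 := by ring
      _ ≤ _ := by gcongr
  have hX1 : (1 : ℝ) ≤ X := hX01.trans hXge
  -- the family
  have hfam : ∀ i, CusB m N T (F i) (lam i) ∧ Lip D (F i) P ∧ 0 ≤ P := fun i =>
    ⟨(hF i).1.toCusB, (hF i).2, hP0.le⟩
  have hcard := hR N T D hSys ι F lam (fun _ => P) hfam hOr δ hδ0 hδ1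
    (fun _ => hδP2.trans (by linarith))
  have hdyd := hD N T D hSys ι F lam (fun _ => P) hfam hOr δ hδ0 hδ1
    (fun _ => hδP2.trans (by linarith)) X hX1 hXle2
  -- one value
  set f : ι → ℝ → ℝ := fun i u => ‖SD (lam i) X u‖ with hf
  have hfc : ∀ i, Continuous (f i) := fun i => (sd_cont (lam i) X).norm
  have hf0 : ∀ i u, 0 ≤ f i u := fun i u => norm_nonneg _
  have hfi : ∀ i t, Integrable (fun τ => k τ * f i (t + τ)) := by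
    intro i t
    obtain ⟨Bb, hBb⟩ := sd_bdd (lam i) X
    refine krn_int hk (f i) (hfc i) Bb (fun u => ?_) t
    rw [abs_of_nonneg (hf0 i u)]
    exact hBb u
  have hval : ∀ i, ∀ t ∈ J i, (‖L i (1 / 2 + t * Complex.I)‖ *
      ∏ k : Fin m, ∏ j, (‖(1 / 2 + t * Complex.I : ℂ) - ((k : ℕ) + 1) - mu i j‖ / P)) ^ 4 ≤
      (8 * C2 ^ 4 * ((N : ℝ) * P) ^ (4 * e1)) * (1 + (∫ τ : ℝ, k τ * f i (t + τ)) ^ 4) := by
    intro i t ht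
    have h1 := hH N T D hSys (F i) (lam i) (mu i) P (hF i).1 (hn1 i) (hF i).2 hP1 (L i) (hLL i) t
      (hJP i t ht) X (by
        refine le_trans ?_ hXge
        rw [hX0]
        gcongr)
    have h2 : ∫ τ : ℝ, k τ * ‖SX (lam i) X (1 / 2 + ((t + τ : ℝ) : ℂ) * Complex.I)‖ =
        ∫ τ : ℝ, k τ * f i (t + τ) := by
      refine integral_congr_ae (Filter.Eventually.of_forall (fun τ => ?_))
      show k τ * _ = k τ * f i (t + τ)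
      rw [hf]
      simp only
      rw [← sx_sd]
    rw [h2] at h1
    have h3 : 0 ≤ ∫ τ : ℝ, k τ * f i (t + τ) :=
      integral_nonneg (fun τ => mul_nonneg (hk.nn τ) (hf0 i _))
    obtain ⟨I, hI⟩ : ∃ I : ℝ, I = ∫ τ : ℝ, k τ * f i (t + τ) := ⟨_, rfl⟩
    rw [← hI] at h1 h3 ⊢
    have h4 : 0 ≤ ‖L i (1 / 2 + t * Complex.I)‖ *
        ∏ k : Fin m, ∏ j, (‖(1 / 2 + t * Complex.I : ℂ) - ((k : ℕ) + 1) - mu i j‖ / P) := by
      positivity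
    have h5 := pow_le_pow_left₀ h4 h1 4
    refine h5.trans ?_
    have h6 : (1 + I) ^ 4 ≤ 8 * (1 + I ^ 4) := by
      nlinarith [sq_nonneg (I - 1), sq_nonneg (I ^ 2 - 1), sq_nonneg (I + 1), mul_nonneg h3 h3,
        mul_nonneg (mul_nonneg h3 h3) (sq_nonneg (I - 1))]
    have h7 : (((N : ℝ) * P) ^ e1) ^ 4 = ((N : ℝ) * P) ^ (4 * e1) := by
      rw [← Real.rpow_natCast, ← Real.rpow_mul (by positivity)]
      congr 1
      push_cast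
      ring
    calc (C2 * ((N : ℝ) * P) ^ e1 * (1 + I)) ^ 4 = C2 ^ 4 * (((N : ℝ) * P) ^ e1) ^ 4 * (1 + I) ^ 4 := by
          ring
      _ ≤ C2 ^ 4 * (((N : ℝ) * P) ^ e1) ^ 4 * (8 * (1 + I ^ 4)) := by gcongr
      _ = _ := by rw [h7]; ring
  -- the sum of the smoothed values
  have hsm : ∑ i, ∑ t ∈ J i, (∫ τ : ℝ, k τ * f i (t + τ)) ^ 4 ≤
      B * S2 * (C1 * ((N : ℝ) * δ⁻¹) ^ ((2 * m + 4) * e1) * (N : ℝ) ^ m * δ⁻¹ ^ (m ^ 2)) := by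
    obtain ⟨Q, hQ⟩ : ∃ Q : ℝ, Q = C1 * ((N : ℝ) * δ⁻¹) ^ ((2 * m + 4) * e1) * (N : ℝ) ^ m *
      δ⁻¹ ^ (m ^ 2) := ⟨_, rfl⟩
    have hQ0 : 0 ≤ Q := by rw [hQ]; positivity
    rw [← hQ] at hdyd ⊢
    have e5 : ENNReal.ofReal (∑ i, ∑ t ∈ J i, (∫ τ : ℝ, k τ * f i (t + τ)) ^ 4) ≤
        ENNReal.ofReal (B * S2 * Q) := by
      rw [ENNReal.ofReal_sum_of_nonneg (fun i _ => Finset.sum_nonneg (fun t _ =>
        Even.pow_nonneg (by decide) _))]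
      calc ∑ i, ENNReal.ofReal (∑ t ∈ J i, (∫ τ : ℝ, k τ * f i (t + τ)) ^ 4) =
          ∑ i, ∑ t ∈ J i, ENNReal.ofReal ((∫ τ : ℝ, k τ * f i (t + τ)) ^ 4) := by
            refine Finset.sum_congr rfl (fun i _ => ?_)
            rw [ENNReal.ofReal_sum_of_nonneg (fun t _ => Even.pow_nonneg (by decide) _)]
        _ ≤ ∑ i, ∑' j : ℤ, ENNReal.ofReal (B * ((1 + |(j : ℝ)|) ^ 2)⁻¹) *
            ∫⁻ u in Set.Icc (-δ⁻¹) δ⁻¹, ENNReal.ofReal (f i (u + 2 * j * δ⁻¹) ^ 4) :=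
            Finset.sum_le_sum (fun i _ => hW δ⁻¹ (J i) (f i) hδi1 (hJ i)
              (fun t ht => (hJP i t ht).trans hPδ) (hfc i) (hf0 i) (hfi i))
        _ = ∑' j : ℤ, ∑ i, ENNReal.ofReal (B * ((1 + |(j : ℝ)|) ^ 2)⁻¹) *
            ∫⁻ u in Set.Icc (-δ⁻¹) δ⁻¹, ENNReal.ofReal (f i (u + 2 * j * δ⁻¹) ^ 4) :=
            (Summable.tsum_finsetSum (fun i _ => ENNReal.summable)).symm
        _ ≤ ∑' j : ℤ, ENNReal.ofReal (B * ((1 + |(j : ℝ)|) ^ 2)⁻¹) * ENNReal.ofReal Q := by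
            refine ENNReal.tsum_le_tsum (fun j => ?_)
            rw [← Finset.mul_sum]
            exact mul_le_mul_right (hdyd (2 * j * δ⁻¹)) _
        _ = ENNReal.ofReal (B * S2 * Q) := by
            rw [ENNReal.tsum_mul_right, ENNReal.ofReal_mul (by positivity)]
            congr 1
            rw [hS2, ← tsum_mul_left, ENNReal.ofReal_tsum_of_nonneg (fun j => by positivity)
              (summable_int_sq.mul_left B)]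
    exact (ENNReal.ofReal_le_ofReal_iff (by positivity)).1 e5
  -- the number of the points
  have hct : ∑ i, ∑ _t ∈ J i, (1 : ℝ) ≤
      4 * (C3 * ((N : ℝ) * δ⁻¹) ^ e1 * (N : ℝ) ^ m * δ⁻¹ ^ (m ^ 2)) := by
    calc ∑ i, ∑ _t ∈ J i, (1 : ℝ) = ∑ i, ((J i).card : ℝ) := by simp
      _ ≤ ∑ _i : ι, 4 * P := Finset.sum_le_sum (fun i _ => wsp_card (hJ i) hP1 (hJP i))
      _ = 4 * ((Fintype.card ι : ℝ) * P) := by
          rw [Finset.sum_const, nsmul_eq_mul, Finset.card_univ]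
          ring
      _ ≤ 4 * ((Fintype.card ι : ℝ) * δ⁻¹) := by gcongr
      _ ≤ _ := by gcongr
  -- powers of the scale
  have hpow : ∀ a : ℝ, 0 ≤ a → ((N : ℝ) * δ⁻¹) ^ a = c'⁻¹ ^ a * ((N : ℝ) * P) ^ a := by
    intro a _
    rw [hδi, show (N : ℝ) * (c'⁻¹ * P) = c'⁻¹ * (N * P) by ring,
      Real.mul_rpow (by positivity) (by positivity)]
  have hpow2 : δ⁻¹ ^ (m ^ 2) = c'⁻¹ ^ (m ^ 2) * P ^ (m ^ 2) := by
    rw [hδi, mul_pow]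
  have hmm : (0 : ℝ) ≤ m := by positivity
  calc ∑ i, ∑ t ∈ J i, (‖L i (1 / 2 + t * Complex.I)‖ *
        ∏ k : Fin m, ∏ j, (‖(1 / 2 + t * Complex.I : ℂ) - ((k : ℕ) + 1) - mu i j‖ / P)) ^ 4 ≤
      ∑ i, ∑ t ∈ J i, (8 * C2 ^ 4 * ((N : ℝ) * P) ^ (4 * e1)) *
        (1 + (∫ τ : ℝ, k τ * f i (t + τ)) ^ 4) :=
        Finset.sum_le_sum (fun i _ => Finset.sum_le_sum (fun t ht => hval i t ht))
    _ = (8 * C2 ^ 4 * ((N : ℝ) * P) ^ (4 * e1)) * (∑ i, ∑ _t ∈ J i, (1 : ℝ) +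
        ∑ i, ∑ t ∈ J i, (∫ τ : ℝ, k τ * f i (t + τ)) ^ 4) := by
        rw [← Finset.sum_add_distrib, Finset.mul_sum]
        refine Finset.sum_congr rfl (fun i _ => ?_)
        rw [← Finset.sum_add_distrib, Finset.mul_sum]
    _ ≤ (8 * C2 ^ 4 * ((N : ℝ) * P) ^ (4 * e1)) *
        (4 * (C3 * ((N : ℝ) * δ⁻¹) ^ e1 * (N : ℝ) ^ m * δ⁻¹ ^ (m ^ 2)) +
        B * S2 * (C1 * ((N : ℝ) * δ⁻¹) ^ ((2 * m + 4) * e1) * (N : ℝ) ^ m * δ⁻¹ ^ (m ^ 2))) := by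
        gcongr
    _ = 8 * C2 ^ 4 * ((c'⁻¹ ^ e1 * c'⁻¹ ^ (m ^ 2)) * (4 * C3) *
          (((N : ℝ) * P) ^ (4 * e1) * ((N : ℝ) * P) ^ e1) +
        (c'⁻¹ ^ ((2 * m + 4) * e1) * c'⁻¹ ^ (m ^ 2)) * (B * S2 * C1) *
          (((N : ℝ) * P) ^ (4 * e1) * ((N : ℝ) * P) ^ ((2 * m + 4) * e1))) *
            ((N : ℝ) ^ m * P ^ (m ^ 2)) := by
        rw [hpow _ he1.le, hpow _ (by positivity), hpow2]
        ring
    _ ≤ 8 * C2 ^ 4 * ((c'⁻¹ ^ e1 * c'⁻¹ ^ (m ^ 2)) * (4 * C3) * ((N : ℝ) * P) ^ ε +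
        (c'⁻¹ ^ ((2 * m + 4) * e1) * c'⁻¹ ^ (m ^ 2)) * (B * S2 * C1) * ((N : ℝ) * P) ^ ε) *
            ((N : ℝ) ^ m * P ^ (m ^ 2)) := by
        have e6 : ((N : ℝ) * P) ^ (4 * e1) * ((N : ℝ) * P) ^ e1 ≤ ((N : ℝ) * P) ^ ε := by
          rw [← Real.rpow_add (by positivity)]
          refine Real.rpow_le_rpow_of_exponent_le hNP ?_
          rw [← he1ε]
          nlinarith
        have e7 : ((N : ℝ) * P) ^ (4 * e1) * ((N : ℝ) * P) ^ ((2 * m + 4) * e1) ≤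
            ((N : ℝ) * P) ^ ε := by
          rw [← Real.rpow_add (by positivity)]
          refine Real.rpow_le_rpow_of_exponent_le hNP ?_
          rw [← he1ε]
          nlinarith
        gcongr
    _ = K * ((N : ℝ) * P) ^ ε * (N : ℝ) ^ m * P ^ (m ^ 2) := by
        rw [hK]
        ring
    _ ≤ (K + 1) * ((N : ℝ) * P) ^ ε * (N : ℝ) ^ m * P ^ (m ^ 2) := by
        gcongr
        linarith

end Pool.Agent.H27.L1.H34.GHY
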