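import Pool.Agent.H27.L1.H68.GHY.Targets
import Pool.Agent.H27.L1.H23.GB.TargetsA

/-!
Board ghy: smoothed values at well spaced points against integrals over intervals.
-/

namespace Pool.Agent.H27.L1.H34.GHY

open MeasureTheory

/-- well spaced points -/
def Wsp (J : Finset ℝ) : Prop := ∀ t ∈ J, ∀ u ∈ J, t ≠ u → 1 ≤ |t - u|

lemma wsp_floor {J : Finset ℝ} (hJ : Wsp J) : Set.InjOn (fun t : ℝ => ⌊t⌋) (J : Set ℝ) := by
  intro t ht u hu h
  by_contra hne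
  have h1 := hJ t ht u hu hne
  have h2 : (⌊t⌋ : ℤ) = ⌊u⌋ := h
  have e1 := Int.floor_le t
  have e2 := Int.lt_floor_add_one t
  have e3 := Int.floor_le u
  have e4 := Int.lt_floor_add_one u
  rw [h2] at e1 e2
  have : |t - u| < 1 := by
    rw [abs_lt]
    constructor <;> linarith
  linarith

lemma summable_int_sq : Summable (fun n : ℤ => ((1 + |(n : ℝ)|) ^ 2)⁻¹) := by
  have h : Summable (fun n : ℕ => ((1 + (n : ℝ)) ^ 2)⁻¹) := by
    have := (summable_nat_add_iff 1).2 (Real.summable_one_div_nat_pow.2 (by norm_num : 1 < 2))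
    refine this.congr (fun n => ?_)
    rw [one_div]
    push_cast
    rw [add_comm]
  refine Summable.of_nat_of_neg ?_ ?_
  · refine h.congr (fun n => ?_)
    simp
  · refine h.congr (fun n => ?_)
    simp

/-- the spaced sum -/
lemma wsp_sum : ∃ B : ℝ, 0 < B ∧ ∀ J : Finset ℝ, Wsp J → ∀ u : ℝ,
    ∑ t ∈ J, ((1 + |u - t|) ^ 2)⁻¹ ≤ B := by
  refine ⟨4 * ∑' n : ℤ, ((1 + |(n : ℝ)|) ^ 2)⁻¹, ?_, ?_⟩
  · have h0 : ((1 + |((0 : ℤ) : ℝ)|) ^ 2)⁻¹ ≤ ∑' n : ℤ, ((1 + |(n : ℝ)|) ^ 2)⁻¹ :=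
      summable_int_sq.le_tsum 0 (fun n _ => by positivity)
    simp at h0
    linarith
  intro J hJ u
  have h1 : ∀ t ∈ J, ((1 + |u - t|) ^ 2)⁻¹ ≤ 4 * ((1 + |((⌊t⌋ - ⌊u⌋ : ℤ) : ℝ)|) ^ 2)⁻¹ := by
    intro t _
    have e1 := Int.floor_le t
    have e2 := Int.lt_floor_add_one t
    have e3 := Int.floor_le u
    have e4 := Int.lt_floor_add_one u
    have h2 : |((⌊t⌋ - ⌊u⌋ : ℤ) : ℝ)| ≤ 1 + |u - t| := by
      push_cast
      rw [abs_le]
      have e5 := le_abs_self (u - t)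
      have e6 := neg_abs_le (u - t)
      constructor <;> linarith
    have h3 : 1 + |((⌊t⌋ - ⌊u⌋ : ℤ) : ℝ)| ≤ 2 * (1 + |u - t|) := by
      have := abs_nonneg (u - t)
      linarith
    have h4 : (1 + |((⌊t⌋ - ⌊u⌋ : ℤ) : ℝ)|) ^ 2 ≤ 4 * (1 + |u - t|) ^ 2 := by
      have := pow_le_pow_left₀ (by positivity) h3 2
      calc _ ≤ (2 * (1 + |u - t|)) ^ 2 := this
        _ = _ := by ring
    have h5 : 0 < (1 + |u - t|) ^ 2 := by positivity
    have h6 : 0 < (1 + |((⌊t⌋ - ⌊u⌋ : ℤ) : ℝ)|) ^ 2 := by positivity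
    rw [← div_eq_mul_inv, inv_eq_one_div, div_le_div_iff₀ h5 h6]
    linarith
  calc ∑ t ∈ J, ((1 + |u - t|) ^ 2)⁻¹ ≤
      ∑ t ∈ J, 4 * ((1 + |((⌊t⌋ - ⌊u⌋ : ℤ) : ℝ)|) ^ 2)⁻¹ := Finset.sum_le_sum h1
    _ = 4 * ∑ t ∈ J, ((1 + |((⌊t⌋ - ⌊u⌋ : ℤ) : ℝ)|) ^ 2)⁻¹ := by rw [Finset.mul_sum]
    _ ≤ 4 * ∑' n : ℤ, ((1 + |(n : ℝ)|) ^ 2)⁻¹ := by
      refine mul_le_mul_of_nonneg_left ?_ (by norm_num)
      have h7 : Set.InjOn (fun t : ℝ => ⌊t⌋ - ⌊u⌋) (J : Set ℝ) := by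
        intro t ht v hv h
        exact wsp_floor hJ ht hv (by simpa using h)
      have h8 : ∑ t ∈ J, ((1 + |((⌊t⌋ - ⌊u⌋ : ℤ) : ℝ)|) ^ 2)⁻¹ =
          ∑ n ∈ J.image (fun t : ℝ => ⌊t⌋ - ⌊u⌋), ((1 + |(n : ℝ)|) ^ 2)⁻¹ := by
        rw [Finset.sum_image (fun t ht v hv h => h7 ht hv h)]
      rw [h8]
      exact summable_int_sq.sum_le_tsum _ (fun n _ => by positivity)

/-- the number of well spaced points in an interval -/
lemma wsp_card {J : Finset ℝ} (hJ : Wsp J) {P : ℝ} (hP : 1 ≤ P) (h : ∀ t ∈ J, |t| ≤ P) :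
    (J.card : ℝ) ≤ 4 * P := by
  have h1 : J.card = (J.image (fun t : ℝ => ⌊t⌋)).card :=
    (Finset.card_image_of_injOn (wsp_floor hJ)).symm
  have h2 : J.image (fun t : ℝ => ⌊t⌋) ⊆ Finset.Icc ⌊-P⌋ ⌊P⌋ := by
    intro n hn
    rw [Finset.mem_image] at hn
    obtain ⟨t, ht, rfl⟩ := hn
    have := abs_le.1 (h t ht)
    rw [Finset.mem_Icc]
    exact ⟨Int.floor_le_floor this.1, Int.floor_le_floor this.2⟩
  have h3 := Finset.card_le_card h2
  rw [← h1, Int.card_Icc] at h3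
  have h4 : ((⌊P⌋ + 1 - ⌊-P⌋).toNat : ℝ) ≤ 4 * P := by
    have e1 := Int.floor_le P
    have e2 := Int.lt_floor_add_one (-P)
    have e0 : 0 ≤ ⌊P⌋ + 1 - ⌊-P⌋ := by
      have : ⌊-P⌋ ≤ ⌊P⌋ := Int.floor_le_floor (by linarith)
      omega
    have e3 : (((⌊P⌋ + 1 - ⌊-P⌋).toNat : ℤ) : ℝ) = ((⌊P⌋ + 1 - ⌊-P⌋ : ℤ) : ℝ) := by
      rw [Int.toNat_of_nonneg e0]
    have e4 : ((⌊P⌋ + 1 - ⌊-P⌋).toNat : ℝ) = (⌊P⌋ : ℝ) + 1 - (⌊-P⌋ : ℝ) := by
      have := e3
      push_cast at this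
      exact_mod_cast this
    rw [e4]
    linarith
  exact (by exact_mod_cast h3 : (J.card : ℝ) ≤ ((⌊P⌋ + 1 - ⌊-P⌋).toNat : ℝ)).trans h4

/-- Hölder -/
lemma hold4 (k g : ℝ → ENNReal) (hk : Measurable k) (hg : Measurable g) :
    (∫⁻ x, k x * g x) ^ 4 ≤ (∫⁻ x, k x) ^ 3 * ∫⁻ x, k x * g x ^ 4 := by
  have h := ENNReal.lintegral_mul_le_Lp_mul_Lq (volume.withDensity k)
    (p := 4 / 3) (q := 4) (Real.holderConjugate_iff.2 ⟨by norm_num, by norm_num⟩)
    (f := fun _ => 1) (g := g) aemeasurable_const hg.aemeasurable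
  have e1 : ∫⁻ a, ((fun _ : ℝ => (1 : ENNReal)) * g : ℝ → ENNReal) a ∂(volume.withDensity k) =
      ∫⁻ x, k x * g x := by
    rw [lintegral_withDensity_eq_lintegral_mul _ hk (measurable_const.mul hg)]
    refine lintegral_congr (fun x => ?_)
    simp
  have e2 : ∫⁻ a, (1 : ENNReal) ^ (4 / 3 : ℝ) ∂(volume.withDensity k) = ∫⁻ x, k x := by
    rw [lintegral_withDensity_eq_lintegral_mul _ hk measurable_const]
    simp
  have e3 : ∫⁻ a, g a ^ (4 : ℝ) ∂(volume.withDensity k) = ∫⁻ x, k x * g x ^ 4 := by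
    rw [lintegral_withDensity_eq_lintegral_mul _ hk (hg.pow_const _)]
    refine lintegral_congr (fun x => ?_)
    simp only [Pi.mul_apply]
    congr 1
    exact_mod_cast ENNReal.rpow_natCast (g x) 4
  rw [e1, e2, e3] at h
  calc (∫⁻ x, k x * g x) ^ 4 ≤
      ((∫⁻ x, k x) ^ (1 / (4 / 3) : ℝ) * (∫⁻ x, k x * g x ^ 4) ^ (1 / 4 : ℝ)) ^ 4 :=
        pow_le_pow_left' h 4
    _ = _ := by
      rw [mul_pow, ← ENNReal.rpow_natCast, ← ENNReal.rpow_mul, ← ENNReal.rpow_natCast (_ ^ (1 / 4 : ℝ)),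
        ← ENNReal.rpow_mul]
      norm_num

/-- smoothed values at well spaced points against integrals over intervals -/
lemma wsp_int (k : ℝ → ℝ) (hk : Pool.Agent.H27.L1.H23.GB.Krn k) : ∃ B : ℝ, 0 < B ∧
    ∀ (M : ℝ) (J : Finset ℝ) (f : ℝ → ℝ), 1 ≤ M → Wsp J → (∀ t ∈ J, |t| ≤ M) →
    Continuous f → (∀ u, 0 ≤ f u) → (∀ t, Integrable (fun τ => k τ * f (t + τ))) →
    ∑ t ∈ J, ENNReal.ofReal ((∫ τ : ℝ, k τ * f (t + τ)) ^ 4) ≤
      ∑' j : ℤ, ENNReal.ofReal (B * ((1 + |(j : ℝ)|) ^ 2)⁻¹) *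
        ∫⁻ u in Set.Icc (-M) M, ENNReal.ofReal (f (u + 2 * j * M) ^ 4) := by
  obtain ⟨C, hC, hdec⟩ := hk.dec 4
  obtain ⟨B0, hB0, hsp⟩ := wsp_sum
  have hk4 : ∀ τ, k τ ≤ C * ((1 + |τ|) ^ 4)⁻¹ := by
    intro τ
    have := hdec τ
    rw [show (-((4 : ℕ) : ℝ)) = -((4 : ℕ) : ℝ) from rfl, Real.rpow_neg (by positivity),
      Real.rpow_natCast] at this
    exact this
  have hmk : Measurable (fun τ => ENNReal.ofReal (k τ)) :=
    ENNReal.measurable_ofReal.comp hk.cont.measurable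
  -- the mass of the kernel
  obtain ⟨K1, hK1, hK1'⟩ : ∃ K1 : ℝ, 0 ≤ K1 ∧ ∫⁻ τ, ENNReal.ofReal (k τ) ≤ ENNReal.ofReal K1 := by
    have hint : Integrable (fun τ : ℝ => C * ((1 + |τ|) ^ 4)⁻¹) := by
      have h1 : Integrable (fun τ : ℝ => (1 + ‖τ‖) ^ (-(4 : ℝ))) :=
        integrable_one_add_norm (by simp)
      refine (h1.const_mul C).congr (Filter.Eventually.of_forall (fun τ => ?_))
      show C * (1 + ‖τ‖) ^ (-(4 : ℝ)) = _
      rw [Real.rpow_neg (by positivity), Real.norm_eq_abs]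
      congr 2
      exact_mod_cast Real.rpow_natCast (1 + |τ|) 4
    refine ⟨∫ τ : ℝ, C * ((1 + |τ|) ^ 4)⁻¹, integral_nonneg (fun τ => by positivity), ?_⟩
    rw [ofReal_integral_eq_lintegral_ofReal hint
      (Filter.Eventually.of_forall (fun τ => by positivity))]
    exact lintegral_mono (fun τ => ENNReal.ofReal_le_ofReal (hk4 τ))
  refine ⟨K1 ^ 3 * (4 * C * B0) + 1, by positivity, ?_⟩
  intro M J f hM hJ hJM hf hf0 hfi
  set F : ℝ → ENNReal := fun u => ENNReal.ofReal (f u ^ 4) with hF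
  have hFm : Measurable F := ENNReal.measurable_ofReal.comp (hf.pow 4).measurable
  -- one point
  have h1 : ∀ t ∈ J, ENNReal.ofReal ((∫ τ : ℝ, k τ * f (t + τ)) ^ 4) ≤
      ENNReal.ofReal K1 ^ 3 * ∫⁻ u, ENNReal.ofReal (k (u - t)) * F u := by
    intro t _
    have e1 : ENNReal.ofReal ((∫ τ : ℝ, k τ * f (t + τ)) ^ 4) =
        (∫⁻ τ, ENNReal.ofReal (k τ) * ENNReal.ofReal (f (t + τ))) ^ 4 := by
      rw [ENNReal.ofReal_pow (integral_nonneg (fun τ => mul_nonneg (hk.nn τ) (hf0 _))),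
        ofReal_integral_eq_lintegral_ofReal (hfi t)
          (Filter.Eventually.of_forall (fun τ => mul_nonneg (hk.nn τ) (hf0 _)))]
      congr 1
      exact lintegral_congr (fun τ => ENNReal.ofReal_mul (hk.nn τ))
    rw [e1]
    have hm2 : Measurable (fun τ => ENNReal.ofReal (f (t + τ))) :=
      ENNReal.measurable_ofReal.comp (hf.comp (continuous_const.add continuous_id)).measurable
    refine (hold4 _ _ hmk hm2).trans ?_
    refine mul_le_mul' (pow_le_pow_left' hK1' 3) (le_of_eq ?_)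
    have e2 := lintegral_sub_right_eq_self (μ := volume)
      (fun τ : ℝ => ENNReal.ofReal (k τ) * F (t + τ)) t
    have e3 : ∫⁻ τ, ENNReal.ofReal (k τ) * ENNReal.ofReal (f (t + τ)) ^ 4 =
        ∫⁻ τ, ENNReal.ofReal (k τ) * F (t + τ) := by
      refine lintegral_congr (fun τ => ?_)
      rw [hF]
      simp only
      rw [ENNReal.ofReal_pow (hf0 _)]
    rw [e3, ← e2]
    refine lintegral_congr (fun u => ?_)
    rw [show t + (u - t) = u by ring]
  -- the kernel sum on an interval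
  have h2 : ∀ (j : ℤ) (u : ℝ), u ∈ Set.Icc (2 * j * M - M) (2 * j * M + M) →
      ∑ t ∈ J, k (u - t) ≤ 4 * C * B0 * ((1 + |(j : ℝ)|) ^ 2)⁻¹ := by
    intro j u hu
    have h3 : ∀ t ∈ J, (1 + |(j : ℝ)|) / 2 ≤ 1 + |u - t| := by
      intro t ht
      have ht1 := abs_le.1 (hJM t ht)
      have hj : |(j : ℝ)| ≤ |u - t| / (2 * M) + 1 := by
        have hM2 : 0 < 2 * M := by linarith
        have e4 : |2 * (j : ℝ) * M| ≤ |u - t| + 2 * M := by
          have : 2 * (j : ℝ) * M = (u - t) + (t - (u - 2 * j * M)) := by ring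
          rw [this]
          refine (abs_add_le _ _).trans (add_le_add le_rfl ?_)
          rw [abs_le]
          constructor <;> linarith [hu.1, hu.2, ht1.1, ht1.2]
        rw [abs_mul, abs_mul, abs_of_pos (by norm_num : (0 : ℝ) < 2), abs_of_pos (by linarith : 0 < M)] at e4
        rw [← sub_le_iff_le_add, le_div_iff₀ hM2]
        nlinarith
      have e5 : |u - t| / (2 * M) ≤ |u - t| / 2 := by
        apply div_le_div_of_nonneg_left (abs_nonneg _) (by norm_num)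
        linarith
      have := abs_nonneg (u - t)
      linarith
    have h4 : ∀ t ∈ J, k (u - t) ≤ 4 * C * ((1 + |(j : ℝ)|) ^ 2)⁻¹ * ((1 + |u - t|) ^ 2)⁻¹ := by
      intro t ht
      refine (hk4 _).trans ?_
      have e6 : 0 < 1 + |u - t| := by positivity
      have e7 : 0 < 1 + |(j : ℝ)| := by positivity
      have e8 : ((1 + |u - t|) ^ 2)⁻¹ ≤ 4 * ((1 + |(j : ℝ)|) ^ 2)⁻¹ := by
        have := pow_le_pow_left₀ (by positivity) (h3 t ht) 2
        rw [← div_eq_mul_inv, inv_eq_one_div, div_le_div_iff₀ (by positivity) (by positivity)]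
        rw [div_pow] at this
        linarith
      calc C * ((1 + |u - t|) ^ 4)⁻¹ = C * (((1 + |u - t|) ^ 2)⁻¹ * ((1 + |u - t|) ^ 2)⁻¹) := by
            rw [← mul_inv]
            ring_nf
        _ ≤ C * (4 * ((1 + |(j : ℝ)|) ^ 2)⁻¹ * ((1 + |u - t|) ^ 2)⁻¹) := by
            refine mul_le_mul_of_nonneg_left ?_ hC.le
            exact mul_le_mul_of_nonneg_right e8 (by positivity)
        _ = _ := by ring
    calc ∑ t ∈ J, k (u - t) ≤ ∑ t ∈ J, 4 * C * ((1 + |(j : ℝ)|) ^ 2)⁻¹ * ((1 + |u - t|) ^ 2)⁻¹ :=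
          Finset.sum_le_sum h4
      _ = 4 * C * ((1 + |(j : ℝ)|) ^ 2)⁻¹ * ∑ t ∈ J, ((1 + |u - t|) ^ 2)⁻¹ := by
          rw [Finset.mul_sum]
      _ ≤ 4 * C * ((1 + |(j : ℝ)|) ^ 2)⁻¹ * B0 :=
          mul_le_mul_of_nonneg_left (hsp J hJ u) (by positivity)
      _ = _ := by ring
  -- the cover
  have hcov : (Set.univ : Set ℝ) ⊆ ⋃ j : ℤ, Set.Icc (2 * (j : ℝ) * M - M) (2 * j * M + M) := by
    intro u _
    have hM2 : 0 < 2 * M := by linarith
    refine Set.mem_iUnion.2 ⟨⌊(u + M) / (2 * M)⌋, ?_⟩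
    have e1 := Int.floor_le ((u + M) / (2 * M))
    have e2 := Int.lt_floor_add_one ((u + M) / (2 * M))
    rw [le_div_iff₀ hM2] at e1
    rw [div_lt_iff₀ hM2] at e2
    constructor <;> nlinarith
  calc ∑ t ∈ J, ENNReal.ofReal ((∫ τ : ℝ, k τ * f (t + τ)) ^ 4) ≤
      ∑ t ∈ J, ENNReal.ofReal K1 ^ 3 * ∫⁻ u, ENNReal.ofReal (k (u - t)) * F u :=
        Finset.sum_le_sum h1
    _ = ENNReal.ofReal K1 ^ 3 * ∫⁻ u, ∑ t ∈ J, ENNReal.ofReal (k (u - t)) * F u := by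
        rw [lintegral_finsetSum, Finset.mul_sum]
        intro t _
        exact (hmk.comp (measurable_id.sub_const t)).mul hFm
    _ = ENNReal.ofReal K1 ^ 3 * ∫⁻ u in Set.univ, ∑ t ∈ J, ENNReal.ofReal (k (u - t)) * F u := by
        rw [Measure.restrict_univ]
    _ ≤ ENNReal.ofReal K1 ^ 3 * ∑' j : ℤ, ∫⁻ u in Set.Icc (2 * (j : ℝ) * M - M) (2 * j * M + M),
          ∑ t ∈ J, ENNReal.ofReal (k (u - t)) * F u := by
        refine mul_le_mul_right ?_ _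
        exact (lintegral_mono_set hcov).trans (lintegral_iUnion_le _ _)
    _ ≤ ENNReal.ofReal K1 ^ 3 * ∑' j : ℤ, ENNReal.ofReal (4 * C * B0 * ((1 + |(j : ℝ)|) ^ 2)⁻¹) *
          ∫⁻ u in Set.Icc (2 * (j : ℝ) * M - M) (2 * j * M + M), F u := by
        refine mul_le_mul_right (ENNReal.tsum_le_tsum (fun j => ?_)) _
        rw [← lintegral_const_mul _ hFm]
        refine setLIntegral_mono (hFm.const_mul _) (fun u hu => ?_)
        rw [← Finset.sum_mul, ← ENNReal.ofReal_sum_of_nonneg (fun t _ => hk.nn _)]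
        exact mul_le_mul_left (ENNReal.ofReal_le_ofReal (h2 j u hu)) _
    _ ≤ _ := by
        rw [← ENNReal.tsum_mul_left]
        refine ENNReal.tsum_le_tsum (fun j => ?_)
        have e9 : ∫⁻ u in Set.Icc (2 * (j : ℝ) * M - M) (2 * j * M + M), F u =
            ∫⁻ u in Set.Icc (-M) M, ENNReal.ofReal (f (u + 2 * j * M) ^ 4) := by
          have := (measurePreserving_add_right volume (2 * (j : ℝ) * M)).setLIntegral_comp_preimage
            (s := Set.Icc (2 * (j : ℝ) * M - M) (2 * j * M + M)) measurableSet_Icc hFm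
          rw [← this]
          congr 2
          rw [Set.preimage_add_const_Icc]
          congr 1 <;> ring
        rw [e9, ← mul_assoc]
        refine mul_le_mul_left ?_ _
        rw [← ENNReal.ofReal_pow hK1, ← ENNReal.ofReal_mul (by positivity)]
        refine ENNReal.ofReal_le_ofReal ?_
        have : 0 < ((1 + |(j : ℝ)|) ^ 2)⁻¹ := by positivity
        nlinarith

end Pool.Agent.H27.L1.H34.GHY
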